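import Pool.Agent.R662.GT.Final

/-!
# Gelfand-Tsetlin degree of the Verma module `M(-rho)` over `gl(n)`
-/

set_option autoImplicit false

open Pool.Agent.R662.GT

/-- For every `n`, the Gelfand-Tsetlin degree of the Verma module `M(-rho)` over `gl(n)` is
`(n-1)! (n-2)! ... 2! 1!` (the factor for `k = 0` is `0! = 1`). -/
theorem Pool.Agent.Results.MP_b5066f_al.GTDegree.result (n : ℕ) :
    gtDeg (n := n) (Verma (negRho n)) =
      ((∏ k ∈ Finset.range n, k.factorial : ℕ) : Cardinal) :=
  gtDeg_eq n
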